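import Pool.Agent.Q193.LT.Gal

/-!
# Semisimplicity of Galois representations and the cubic hypersurfaces `T(x, y, z) = 1`

Let `k` be a finitely generated field of characteristic zero and `ℓ` a prime number. Let `M` be the
category of motives over `k` for absolute Hodge cycles (or for motivated cycles), a semisimple abelian
category, `ω : M ⥤ Rep(Gal(k̄/k))` its `ℓ`-adic realization, `N ↦ N(a)` the Tate twists. For a separated
`k`-scheme `X` of finite type let `D.H i X` be the object of `M` given by the graded object of the weight
filtration of the cohomology with compact supports `H^i_c(X)`; for smooth projective `X` it is the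
motive `h^i(X)`, and `ω(h^i(X)) = H^i_ℓ(X)`. `SemiAt D ω N` says that the Galois representations
`ω(N(a))` are semisimple for all `a` (this does not depend on `a`).

**Theorem.** (1) The representations `H^i_ℓ(X)` are semisimple for all smooth projective varieties `X`
over `k` and all `i` if and only if the representations `Gr^W H^i_c(T = 1)` are semisimple for all `i` and
for the smooth affine cubic hypersurfaces `T(x, y, z) = 1` of all trilinear forms `T` over `k`. If
`k = ℚ`, it is enough to consider the hypersurfaces `X_H : ∑_{(i, j, l) ∈ H} x_i y_j z_l = 1` of the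
finite sets `H` of triples.

(2) For all `n`, the representations `H^i_ℓ(X)` are semisimple for all smooth projective varieties `X` of
dimension at most `n` over `k` if and only if the representations `Gr^W H^i_c(T = 1)` are semisimple for
all trilinear forms `T` over `k` such that one of the three blocks of variables has at most `n + 2`
variables.

(3) Unconditionally, the representations `Gr^W H^i_c(T = 1)` are semisimple if one of the three blocks of
variables of `T` has at most three variables, while the other two blocks are arbitrary.
-/

set_option autoImplicit false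

open CategoryTheory CategoryTheory.Limits AlgebraicGeometry Pool.Agent.Y116.UV Pool.Agent.Z125.UN
  Pool.Agent.Q193.LT

universe w v u

namespace Pool.Agent.Results.MP_b4801b_ag.CubicHypersurfaces

variable {k : Type} [Field k] {M : Type u} [Category.{v} M] [Abelian M] {ℓ : ℕ} [Fact ℓ.Prime]

/-- The representations `H^i_ℓ(Y)` are semisimple for all smooth projective `Y` of dimension at most
`n`. -/
def Proj (D : CompactData k M) (ω : M ⥤ ModuleCat.{w} (GalAlg k ℓ)) (n : ℕ) : Prop :=
  ∀ Y : Sch k, SmoothProj Y → topologicalKrullDim Y.left ≤ n → ∀ i, SemiAt D ω (D.H i Y)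

/-- The representations are semisimple for the hypersurfaces `T = 1` with a block of at most `m`
variables. -/
def Forms (D : CompactData k M) (ω : M ⥤ ModuleCat.{w} (GalAlg k ℓ)) (m : ℕ) : Prop :=
  ∀ (a b c : ℕ) (T : Fin a → Fin b → Fin c → k), (a ≤ m ∨ b ≤ m ∨ c ≤ m) →
    ∀ i, SemiAt D ω (D.H i (hypS T))

/-- **Semisimplicity and cubic hypersurfaces.** See the explanations above. The known cases that are used
for the third part are points and smooth projective curves (Faltings). -/
theorem result [CharZero k] (_hk : (⊤ : Subfield k).FG) {D : CompactData k M}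
    {ω : M ⥤ ModuleCat.{w} (GalAlg k ℓ)} (h : IsMotivic D ω)
    (point : ∀ i, SemiAt D ω (D.H i (aff k k))) (faltings : Proj D ω 1) :
    ((∀ Y : Sch k, SmoothProj Y → ∀ i, SemiAt D ω (D.H i Y)) ↔
      ∀ (a b c : ℕ) (T : Fin a → Fin b → Fin c → k), ∀ i, SemiAt D ω (D.H i (hypS T))) ∧
    (Frac k → ((∀ Y : Sch k, SmoothProj Y → ∀ i, SemiAt D ω (D.H i Y)) ↔
      ∀ (a b c : ℕ) (H : Finset (Fin a × Fin b × Fin c)), ∀ i,
        SemiAt D ω (D.H i (tripS k H)))) ∧
    (∀ n : ℕ, Proj D ω n ↔ Forms D ω (n + 2)) ∧ Forms D ω 3 :=
  ⟨proj_all_iff h.compact h.generated h.semi point,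
    fun hk => proj_graph_iff hk h.compact h.generated h.semi point,
    fun n => proj_iff h.compact h.generated h.semi point n,
    (proj_iff h.compact h.generated h.semi point 1).mp faltings⟩

end Pool.Agent.Results.MP_b4801b_ag.CubicHypersurfaces
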