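import Pool.Agent.Q41.ZP.Count2
import Pool.Agent.Q128.TS.Jordan
import Pool.Agent.Results.MP_b4801b_ag.SemisimpleBadPrimes

/-!
# Semisimplicity for all `ℓ` at once, for almost all members of degenerating families with any number
of parameters

Let `f_1, …, f_L ∈ ℤ[t_1, …, t_r]` be irreducible nonconstant polynomials, none of which divides
another, `N ≥ 1`, and let `X` be a smooth projective family over the open subset
`f_1 ⋯ f_L ≠ 0` of the affine space of dimension `r` over `ℤ[1/N]`. For a prime number `ℓ` let `V_ℓ` be the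
`w`-th `ℓ`-adic cohomology of the geometric generic fibre, a representation `ρ` of the fundamental
group `Γ` of the base with `ℓ` inverted, and let `γ_l ∈ Γ` be the local monodromy around the divisor
`f_l = 0`. We suppose that the `γ_l` act by unipotent maps on `V_ℓ`; let `m_l (i)` be the number of Jordan
blocks of size `i` (it does not depend on `ℓ`). For an integral point `t` with all `f_l (t) ≠ 0` the
cohomology `H^w(X_t, ℚ_ℓ)` of the member is `V_ℓ` with the action of the Galois group of `ℚ` given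
by a specialisation map `θ_t : Gal(ℚ̄/ℚ) → Γ`.

Let `p` be a large prime number which divides `f_l (t)`, but not the other `f_l' (t)`, such that
the point `t` modulo `p` is outside a proper closed subset of the divisor `f_l = 0` modulo `p` (the zero set
of the `g_{l, i}`). By the lemma of Abhyankar the tame inertia at `p` acts through a conjugate of a power
`γ_l ^ e`, `e > 0`; and since the member `X_t` can be compared with a family over a curve over the field
with `p` elements through the same point, the weight-monodromy condition holds (Deligne,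
Weil II). This is the structure `Cohomology` below; the structure `PurePolarized` and the conditions
`IsFrobeniusPower`, `PureMonodromy`, `HalfBlocks` are those of the starting file `SemisimpleBadPrimes`.

**Theorem.** Suppose that for every `d > 0` with `2 d ≤ dim V` and `w d` even there is an `l` such that `d` is
not of the form `∑ j, j * b j` with `2 * b j ≤ m_l (j)` for all `j` (for instance the Jordan blocks of one
`γ_l` have pairwise different sizes). Then for every `ε > 0` for all but `O(H^{r - 1 + ε})` of the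
integral points `t` with `|t_j| ≤ H` the cohomology `H^w(X_t, ℚ_ℓ)` is semisimple for **all prime numbers
`ℓ`** outside a set of at most `L` prime numbers. If for every `d` there are two such `l`, then
it is semisimple for all prime numbers `ℓ`.

The exceptional set of integral points does not depend on `ℓ`, and the exponent `r - 1` is the
best possible: the hypersurfaces `f_l = 0` themselves may contain as many integral points. (For one
fixed `ℓ`, if the arithmetic monodromy of the generic fibre is known to be semisimple, Hilbert's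
irreducibility theorem gives a set of exceptions of size `O(H^{r - 1/2} log H)`, which depends on `ℓ`.)

The proof combines the criterion of `SemisimpleBadPrimes` with the count `Q41.ZP.Count2`: for all
but `O(H^{r - 1 + ε})` integral points the values `f_l (t)` have large prime divisors `p_l` which divide
neither the other `f_l' (t)` nor the `g_{l, i} (t)`.
-/

set_option autoImplicit false

namespace Pool.Agent.Results.MP_b4801b_ag.DegeneratingFamilies

open NumberField IsDedekindDomain Polynomial TensorProduct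
open Pool.Agent.Results.MP_b4801b_ag.SemisimpleBadPrimes

/-- The divisors along which a family over the affine space of dimension `r` over `ℤ` degenerates:
the polynomials `f l`, polynomials `g l i` (the condition `g l i ≠ 0` removes a closed subset of the
divisor `f l = 0`), a bound `N` for the primes that are not considered, and the number `m l i` of the
Jordan blocks of size `i` of the local monodromy around `f l = 0`. -/
structure Divisors (r L : ℕ) (κ : Type) where
  f : Fin L → MvPolynomial (Fin r) ℤ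
  g : Fin L → κ → MvPolynomial (Fin r) ℤ
  N : ℕ
  m : Fin L → ℕ → ℕ

/-- the integral point `t` does not lie on the divisors -/
def Divisors.Off {r L : ℕ} {κ : Type} (D : Divisors r L κ) (t : Fin r → ℤ) : Prop :=
  ∀ l, MvPolynomial.eval t (D.f l) ≠ 0

/-- the prime number `p > N` divides `f l (t)`, but neither the other `f l' (t)` nor the `g l i (t)` -/
def Divisors.At {r L : ℕ} {κ : Type} (D : Divisors r L κ) (t : Fin r → ℤ) (l : Fin L) (p : ℕ) : Prop :=
  (p.Prime ∧ D.N < p ∧ (p : ℤ) ∣ MvPolynomial.eval t (D.f l)) ∧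
    (∀ l', l' ≠ l → ¬ (p : ℤ) ∣ MvPolynomial.eval t (D.f l')) ∧
    ∀ i, ¬ (p : ℤ) ∣ MvPolynomial.eval t (D.g l i)

/-- Local monodromy at a place `v`: for every power `σ` of a Frobenius element at `v` (acting as
`x ↦ x ^ q`) there is an element `τ` of the Galois group (of the inertia group) which acts as a
conjugate of a power `γ ^ e`, `e > 0`, with `σ τ = τ ^ q σ` on `V`; the factor of `σ⁻¹` is
`q ^ w`, and the weight-monodromy condition is satisfied (or the numbers `m i` of the Jordan blocks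
of `γ` are at most `1`). -/
def MonodromyAt {ℓ w : ℕ} [Fact ℓ.Prime] {Γ V : Type} [Group Γ] [AddCommGroup V] [Module ℚ_[ℓ] V]
    [FiniteDimensional ℚ_[ℓ] V] (B : PurePolarized ℚ ℓ w Γ V) (ι : AlgebraicClosure ℚ_[ℓ] →+* ℂ)
    (γ : Γ) (m : ℕ → ℕ) (v : HeightOneSpectrum (𝓞 ℚ)) : Prop :=
  ∀ (q : ℕ) (σ : G ℚ), 1 < q → IsFrobeniusPower v q σ → ∃ (τ : G ℚ) (a : Γ) (e : ℕ), 0 < e ∧
    B.ρ (B.θ τ) = B.ρ (a * γ ^ e * a⁻¹) ∧ B.ρ (B.θ σ) * B.ρ (B.θ τ) = B.ρ (B.θ τ) ^ q * B.ρ (B.θ σ) ∧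
    B.χ (B.θ σ⁻¹) = (q : ℚ_[ℓ]) ^ w ∧
    (PureMonodromy ι q w (B.ρ (B.θ σ⁻¹)) (B.ρ (B.θ τ)) ∨ ∀ i, 0 < i → m i ≤ 1)

/-- Every subspace of `V` which is stable under the Galois group of `ℚ` (acting through `B.θ`) has a
stable complement. -/
def Semisimple {ℓ w : ℕ} [Fact ℓ.Prime] {Γ V : Type} [Group Γ] [AddCommGroup V] [Module ℚ_[ℓ] V]
    [FiniteDimensional ℚ_[ℓ] V] (B : PurePolarized ℚ ℓ w Γ V) : Prop :=
  ∀ U : Submodule ℚ_[ℓ] V, (∀ g : G ℚ, ∀ x ∈ U, B.ρ (B.θ g) x ∈ U) →
    ∃ U' : Submodule ℚ_[ℓ] V, (∀ g : G ℚ, ∀ x ∈ U', B.ρ (B.θ g) x ∈ U') ∧ IsCompl U U'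

/-- The `ℓ`-adic cohomology of degree `w` of the members of a family over the complement of the divisors
`D` in the affine space of dimension `r` over `ℤ`:
* `ρ` is the representation of the fundamental group `Γ`, `γ l` the local monodromy around
  `f l = 0`, unipotent with `m l i` Jordan blocks of size `i`;
* `member t` is the Galois representation of the member at `t`, pure and polarized: `ρ` together with
  the specialisation map `(member t).θ` from the Galois group of `ℚ` to `Γ`;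
* the places above a prime number `p ≠ ℓ` as in `Divisors.At` satisfy `MonodromyAt`. -/
structure Cohomology {r L : ℕ} {κ : Type} (D : Divisors r L κ) (ℓ w : ℕ) [Fact ℓ.Prime]
    (Γ V : Type) [Group Γ] [AddCommGroup V] [Module ℚ_[ℓ] V] [FiniteDimensional ℚ_[ℓ] V]
    (ι : AlgebraicClosure ℚ_[ℓ] →+* ℂ) where
  ρ : Γ →* (V →ₗ[ℚ_[ℓ]] V)
  γ : Fin L → Γ
  unipotent : ∀ l, IsNilpotent (ρ (γ l) - 1)
  blocks : ∀ l i, 0 < i → jordanBlocks (ρ (γ l)) i = D.m l i
  member : (Fin r → ℤ) → PurePolarized ℚ ℓ w Γ V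
  member_ρ : ∀ t, D.Off t → (member t).ρ = ρ
  local_monodromy : ∀ t, D.Off t → ∀ l p, p ≠ ℓ → D.At t l p →
    ∀ v : HeightOneSpectrum (𝓞 ℚ), (p : 𝓞 ℚ) ∈ v.asIdeal → MonodromyAt (member t) ι (γ l) (D.m l) v

section
variable {ℓ w : ℕ} [Fact ℓ.Prime] {Γ V : Type} [Group Γ] [AddCommGroup V] [Module ℚ_[ℓ] V]
  [FiniteDimensional ℚ_[ℓ] V]

/-- the member as a representation of the Galois group of `ℚ` -/
noncomputable def pull (B : PurePolarized ℚ ℓ w Γ V) : PurePolarized ℚ ℓ w (G ℚ) V where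
  θ := MonoidHom.id _
  ρ := B.ρ.comp B.θ
  continuous := B.continuous
  B := B.B
  nondegenerate := B.nondegenerate
  symm_or_alt := B.symm_or_alt
  χ := fun g => B.χ (B.θ g)
  similitude := fun g x y => B.similitude (B.θ g) x y
  S := B.S
  finite := B.finite
  P := B.P
  monic := B.monic
  weight := B.weight
  charpoly := B.charpoly
  factor := B.factor

lemma jordanBlocks_conj (ρ : Γ →* (V →ₗ[ℚ_[ℓ]] V)) {γ : Γ} (hγ : IsNilpotent (ρ γ - 1)) (a : Γ)
    {e : ℕ} (he : 0 < e) (i : ℕ) : jordanBlocks (ρ (a * γ ^ e * a⁻¹)) i = jordanBlocks (ρ γ) i := by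
  have h1 : ρ (a * γ ^ e * a⁻¹) = ρ a * ρ γ ^ e * ρ a⁻¹ := by
    rw [map_mul, map_mul, map_pow]
  have hab : ρ a * ρ a⁻¹ = 1 := by rw [← map_mul, mul_inv_cancel, map_one]
  have hba : ρ a⁻¹ * ρ a = 1 := by rw [← map_mul, inv_mul_cancel, map_one]
  have h2 : ∀ i, Module.finrank ℚ_[ℓ] (LinearMap.range ((ρ (a * γ ^ e * a⁻¹) - 1) ^ i)) =
      Module.finrank ℚ_[ℓ] (LinearMap.range ((ρ γ - 1) ^ i)) := by
    intro i
    rw [h1, Pool.Agent.Q128.TS.finrank_range_conj hab hba,
      Pool.Agent.Q128.TS.finrank_range_pow hγ he]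
  rw [jordanBlocks, jordanBlocks, h2, h2, h2]

lemma nilpotent_conj (ρ : Γ →* (V →ₗ[ℚ_[ℓ]] V)) {γ : Γ} (hγ : IsNilpotent (ρ γ - 1)) (a : Γ)
    (e : ℕ) : IsNilpotent (ρ (a * γ ^ e * a⁻¹) - 1) := by
  obtain ⟨k, hk⟩ := hγ
  have hab : ρ a * ρ a⁻¹ = 1 := by rw [← map_mul, mul_inv_cancel, map_one]
  have hba : ρ a⁻¹ * ρ a = 1 := by rw [← map_mul, inv_mul_cancel, map_one]
  have h0 : (ρ γ ^ e - 1) ^ k = 0 := by
    have h1 : ρ γ ^ e - 1 = (ρ γ - 1) * ∑ i ∈ Finset.range e, ρ γ ^ i := (mul_geom_sum _ e).symm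
    have hc : Commute (ρ γ - 1) (∑ i ∈ Finset.range e, ρ γ ^ i) := by
      refine Commute.sum_right _ _ _ fun i _ => ?_
      exact ((Commute.refl _).sub_left (Commute.one_left _)).pow_right i
    rw [h1, hc.mul_pow, hk, zero_mul]
  refine ⟨k, ?_⟩
  have h1 : ρ (a * γ ^ e * a⁻¹) - 1 = ρ a * (ρ γ ^ e - 1) * ρ a⁻¹ := by
    rw [map_mul, map_mul, map_pow, mul_sub, sub_mul, mul_one, hab]
  have h2 : ∀ k, (ρ a * (ρ γ ^ e - 1) * ρ a⁻¹) ^ k = ρ a * (ρ γ ^ e - 1) ^ k * ρ a⁻¹ := by
    intro k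
    induction k with
    | zero => rw [pow_zero, pow_zero, mul_one, hab]
    | succ k ih =>
      rw [pow_succ, ih, pow_succ]
      calc ρ a * (ρ γ ^ e - 1) ^ k * ρ a⁻¹ * (ρ a * (ρ γ ^ e - 1) * ρ a⁻¹) =
            ρ a * (ρ γ ^ e - 1) ^ k * (ρ a⁻¹ * ρ a) * (ρ γ ^ e - 1) * ρ a⁻¹ := by
              simp only [mul_assoc]
        _ = _ := by rw [hba]; simp only [mul_assoc, mul_one]
  rw [h1, h2, h0, mul_zero, zero_mul]

end

/-- there is a place above a prime number -/
lemma exists_above {p : ℕ} (hp : p.Prime) : ∃ v : HeightOneSpectrum (𝓞 ℚ), (p : 𝓞 ℚ) ∈ v.asIdeal := by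
  have hnu : ¬ IsUnit (p : 𝓞 ℚ) := by
    intro h
    have h1 : IsUnit (Rat.ringOfIntegersEquiv (p : 𝓞 ℚ)) := h.map _
    rw [map_natCast] at h1
    exact (Nat.prime_iff_prime_int.1 hp).not_isUnit h1
  obtain ⟨M, hM, hle⟩ := Ideal.exists_le_maximal (Ideal.span {(p : 𝓞 ℚ)})
    (by rwa [Ne, Ideal.span_singleton_eq_top])
  have hmem : (p : 𝓞 ℚ) ∈ M := hle (Ideal.mem_span_singleton_self _)
  refine ⟨⟨M, hM.isPrime, fun h => ?_⟩, hmem⟩
  rw [h, Ideal.mem_bot] at hmem
  exact hp.ne_zero (by exact_mod_cast hmem)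

/-- semisimplicity from the primes `p l ≠ ℓ` -/
lemma semisimple_of {r L : ℕ} {κ : Type} {D : Divisors r L κ} {ℓ w : ℕ} [Fact ℓ.Prime]
    {Γ V : Type} [Group Γ] [AddCommGroup V] [Module ℚ_[ℓ] V] [FiniteDimensional ℚ_[ℓ] V]
    {ι : AlgebraicClosure ℚ_[ℓ] →+* ℂ} (hw : 0 < w) (A : Cohomology D ℓ w Γ V ι) (t : Fin r → ℤ)
    (ht : D.Off t) (p : Fin L → ℕ) (hp : ∀ l, D.At t l (p l))
    (h : ∀ d : ℕ, 0 < d → 2 * d ≤ Module.finrank ℚ_[ℓ] V → Even (w * d) →
      ∃ l, p l ≠ ℓ ∧ ¬ HalfBlocks (D.m l) (Module.finrank ℚ_[ℓ] V) d) :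
    Semisimple (A.member t) := by
  intro U hU
  have hρ := A.member_ρ t ht
  have hres := SemisimpleBadPrimes.result ℚ ℓ w hw (G ℚ) V (pull (A.member t)) ι
    (fun d hd hd2 hev => by
      rw [Module.finrank_self, mul_one] at hev
      obtain ⟨l, hl, hhalf⟩ := h d hd hd2 hev
      refine Or.inr ⟨p l, (hp l).1.1, fun _ => D.m l, fun v hv q σ hq hσ => ?_, ?_⟩
      · obtain ⟨τ, a, e, he, h1, h2, h3, h4⟩ := A.local_monodromy t ht l (p l) hl (hp l) v hv q σ hq hσ
        have hun : IsNilpotent ((A.member t).ρ (A.γ l) - 1) := by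
          rw [hρ]
          exact A.unipotent l
        refine ⟨τ, ?_, h2, h3, ?_, h4⟩
        · change IsNilpotent ((A.member t).ρ ((A.member t).θ τ) - 1)
          rw [h1]
          exact nilpotent_conj _ hun a e
        · intro i hi
          change jordanBlocks ((A.member t).ρ ((A.member t).θ τ)) i = D.m l i
          rw [h1, jordanBlocks_conj _ hun a he, hρ]
          exact A.blocks l i hi
      · obtain ⟨v, hv⟩ := exists_above (hp l).1.1
        exact ⟨v, hv, hhalf⟩) U hU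
  exact ⟨_, hres.2, hres.1⟩

section
variable {r L : ℕ} {κ : Type} {D : Divisors r L κ} {w : ℕ} {J : Type} {ℓ : J → ℕ}
  [∀ j, Fact (ℓ j).Prime] {Γ V : J → Type} [∀ j, Group (Γ j)] [∀ j, AddCommGroup (V j)]
  [∀ j, Module ℚ_[ℓ j] (V j)] [∀ j, FiniteDimensional ℚ_[ℓ j] (V j)]
  {ι : ∀ j, AlgebraicClosure ℚ_[ℓ j] →+* ℂ}

/-- The integral points `t` with `|t_i| ≤ H` which lie on the divisors, or for which the `ℓ j`-adic
cohomology of the member is not semisimple for a set of primes `ℓ j` that is not contained in a set of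
`K` elements. -/
def exceptions (A : ∀ j, Cohomology D (ℓ j) w (Γ j) (V j) (ι j)) (K H : ℕ) : Set (Fin r → ℤ) :=
  {t | (∀ i, |t i| ≤ (H : ℤ)) ∧ ¬ (D.Off t ∧ ∃ S : Finset ℕ, S.card ≤ K ∧
    ∀ j, ℓ j ∉ S → Semisimple ((A j).member t))}

/-- **Semisimplicity for all `ℓ` at once, for almost all members of degenerating families.** -/
theorem result [Fintype κ] (hw : 0 < w) (A : ∀ j, Cohomology D (ℓ j) w (Γ j) (V j) (ι j))
    (hf : ∀ l, Irreducible (D.f l)) (hdeg : ∀ l, (D.f l).totalDegree ≠ 0)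
    (hne : ∀ l l', l ≠ l' → ¬ D.f l ∣ D.f l') (hg : ∀ l i, ¬ D.f l ∣ D.g l i)
    (n : ℕ) (hn : ∀ j, Module.finrank ℚ_[ℓ j] (V j) = n) (ε : ℝ) (hε : 0 < ε) :
    ((∀ d : ℕ, 0 < d → 2 * d ≤ n → Even (w * d) → ∃ l, ¬ HalfBlocks (D.m l) n d) →
      ∃ C : ℝ, ∀ H : ℕ, 1 ≤ H → ((exceptions A L H).ncard : ℝ) ≤ C * (H : ℝ) ^ ((r : ℝ) - 1 + ε)) ∧
    ((∀ d : ℕ, 0 < d → 2 * d ≤ n → Even (w * d) → ∃ l l', l ≠ l' ∧ ¬ HalfBlocks (D.m l) n d ∧
        ¬ HalfBlocks (D.m l') n d) →
      ∃ C : ℝ, ∀ H : ℕ, 1 ≤ H → ((exceptions A 0 H).ncard : ℝ) ≤ C * (H : ℝ) ^ ((r : ℝ) - 1 + ε)) := by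
  classical
  obtain ⟨C, hC⟩ := Pool.Agent.Q41.ZP.count_sym2 D.f hf hdeg hne D.g hg D.N hε
  have hfin : ∀ H : ℕ, {z : Fin r → ℤ | (∀ j, |z j| ≤ (H : ℤ)) ∧
      ¬ Pool.Agent.Q41.ZP.Good (MvPolynomial.eval z) D.f D.g D.N}.Finite := fun H =>
    (Fintype.piFinset fun _ : Fin r => Finset.Icc (-(H : ℤ)) H).finite_toSet.subset fun t ht =>
      Fintype.mem_piFinset.2 fun j => Finset.mem_Icc.2 (abs_le.1 (ht.1 j))
  constructor
  · intro hhalf
    refine ⟨C, fun H hH => le_trans ?_ (hC H hH)⟩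
    rw [Nat.cast_le]
    refine Set.ncard_le_ncard ?_ (hfin H)
    rintro t ⟨ht1, ht2⟩
    refine ⟨ht1, ?_⟩
    rintro ⟨hf0, p, hp1, hp2, hp3⟩
    apply ht2
    refine ⟨hf0, Finset.univ.image p, ?_, fun j hj => ?_⟩
    · exact Finset.card_image_le.trans (by rw [Finset.card_univ, Fintype.card_fin])
    · refine semisimple_of hw (A j) t hf0 p
        (fun l => ⟨hp1 l, fun l' hl' => hp2 l l' (Ne.symm hl'), hp3 l⟩) fun d hd hd2 hev => ?_
      rw [hn j] at hd2 ⊢
      obtain ⟨l, hl⟩ := hhalf d hd hd2 hev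
      exact ⟨l, fun h => hj (h ▸ Finset.mem_image_of_mem p (Finset.mem_univ l)), hl⟩
  · intro hhalf
    refine ⟨C, fun H hH => le_trans ?_ (hC H hH)⟩
    rw [Nat.cast_le]
    refine Set.ncard_le_ncard ?_ (hfin H)
    rintro t ⟨ht1, ht2⟩
    refine ⟨ht1, ?_⟩
    rintro ⟨hf0, p, hp1, hp2, hp3⟩
    apply ht2
    refine ⟨hf0, ∅, le_of_eq Finset.card_empty, fun j _ => ?_⟩
    refine semisimple_of hw (A j) t hf0 p
      (fun l => ⟨hp1 l, fun l' hl' => hp2 l l' (Ne.symm hl'), hp3 l⟩) fun d hd hd2 hev => ?_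
    rw [hn j] at hd2 ⊢
    obtain ⟨l, l', hll, hl, hl'⟩ := hhalf d hd hd2 hev
    by_cases h : p l = ℓ j
    · refine ⟨l', fun h' => ?_, hl'⟩
      exact hp2 l l' hll (by rw [h, ← h']; exact (hp1 l').2.2)
    · exact ⟨l, h, hl⟩

end

end Pool.Agent.Results.MP_b4801b_ag.DegeneratingFamilies
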