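import Pool.Agent.Q49.WU.Facts
import Pool.Agent.Q193.LT.Gal

/-!
# Semisimplicity of `H^i_ℓ`, degree by degree

Let `k` be a finitely generated field of characteristic `0` and `ℓ` a prime number. Let `M` be the category
of motives over `k` for absolute Hodge cycles (or motivated cycles), a semisimple abelian category with
Tate twists, and `ω` its `ℓ`-adic realization. Fix an integer `i ≥ 0`. For a separated scheme `X` of finite
type over `k` and integers `N`, `n` let `D.H N n X = Gr^W_{i+2N} H^n_c(X)`, the part of weight `i + 2N`
of the cohomology with compact supports; for smooth projective `X` it is `h^n(X)` if `n = i + 2N` and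
zero otherwise. `Semi D ω N X` says that the Galois representations `ω(D.H N n X)` (and their Tate
twists) are semisimple for all `n`. For smooth projective `Y` the statement `Semi D ω 0 Y` says that
`H^i_ℓ(Y)` is semisimple.

**Theorem.** Let `i ≥ 0`.

(1) The representations `H^i_ℓ(Y)` (this degree `i` only) are semisimple for all smooth projective
varieties `Y` over `k` if and only if the representations `Gr^W_{i+2(a-1)} H^n_c(Z)`, `n ∈ ℤ`, are
semisimple for the smooth affine cubic hypersurfaces `Z : T(x, y, z) = 1` of all trilinear forms `T`
over `k`, where `a` is the number of the variables `x_i`.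

(2) If `k = ℚ`, it is enough to consider the hypersurfaces
`X_H : ∑_{(i, j, l) ∈ H} x_i y_j z_l = 1` of all finite sets `H` of triples.

(3) For `i = 1` the left side is known (Faltings), and so the representations
`Gr^W_{2a-1} H^n_c(T = 1)` are semisimple for all trilinear forms `T` over `k` in `a` variables `x_i` and
any numbers of variables `y_j`, `z_l`. (This is the implication in (1).) The first open case of the
left side is `i = 2` (surfaces), which corresponds to `Gr^W_{2a} H^n_c(T = 1)`.
-/

set_option autoImplicit false

open CategoryTheory CategoryTheory.Limits AlgebraicGeometry Pool.Agent.Y116.UV Pool.Agent.Z125.UN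
  Pool.Agent.Q193.LT Pool.Agent.Q49.WU

universe w v u

namespace Pool.Agent.Results.MP_b4801b_ag.DegreeByDegree

variable {k : Type} [Field k] {M : Type u} [Category.{v} M] [Abelian M] {ℓ : ℕ} [Fact ℓ.Prime]

/-- The representations `ω(D.H N n X)` and their Tate twists are semisimple, for all `n`. -/
def Semi (D : WeightData k M) (ω : M ⥤ ModuleCat.{w} (GalAlg k ℓ)) (N : ℤ) (X : Sch k) : Prop :=
  InAt D (TwSemi D ω) N X

/-- **Semisimplicity, degree by degree.** See the explanations above; `point` is the known case of the
twists of the trivial representation. -/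
theorem result [CharZero k] (_hk : (⊤ : Subfield k).FG) {D : WeightData k M}
    {ω : M ⥤ ModuleCat.{w} (GalAlg k ℓ)} (h : IsWMotives D) (hω : ω.Additive)
    (point : ∀ N, Semi D ω N (aff k k)) :
    ((∀ Y : Sch k, SmoothProj Y → Semi D ω 0 Y) ↔
      ∀ (a b c : ℕ) (T : Fin a → Fin b → Fin c → k), Semi D ω (a - 1) (hypS T)) ∧
    (Frac k → ((∀ Y : Sch k, SmoothProj Y → Semi D ω 0 Y) ↔
      ∀ (a b c : ℕ) (H : Finset (Fin a × Fin b × Fin c)), Semi D ω (a - 1) (tripS k H))) := by
  have hS : TwSerre D (TwSemi D ω) := twSemi_serre h.weight h.semisimple
  have h1 := sp_weight_iff h.weight h.generated hS point 0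
  have h2 := fun hF : Frac k => sp_weight_graph h.weight h.generated hS point hF 0
  simp only [zero_add] at h1 h2
  exact ⟨h1, h2⟩

end Pool.Agent.Results.MP_b4801b_ag.DegreeByDegree
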