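import Pool.Agent.Q294.SS.Top

/-!
# One fibre with semisimple `ℓ`-adic cohomology

Let `k` be a field of characteristic zero (for instance finitely generated), `T` a smooth
geometrically connected `k`-variety, `X → T` a smooth projective morphism and `ℓ` a prime.  The
`i`-th `ℓ`-adic cohomology groups of the geometric fibres form a lisse sheaf on `T`, that is a
continuous representation `ρ` of the (profinite) fundamental group `Γ` of `T` on a finite-dimensional
vector space `V` over the `ℓ`-adic numbers.  There is a homomorphism `π` from `Γ` onto the absolute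
Galois group of `k`, whose kernel is the geometric fundamental group; by Deligne (Weil II) the kernel
of `π` acts semisimply on `V`.  A closed point `t` of `T` with residue field `K`, a finite extension
of `k`, defines a homomorphism `θ` from the absolute Galois group of `K` to `Γ` whose composition with
`π` is the inclusion; the representation `ρ ∘ θ` is the cohomology of the fibre `X_t`, and `ρ` itself,
composed with the surjection from the absolute Galois group of the function field of `T`, is the
cohomology of the generic fibre.  `Family` and `ClosedPoint` below are these data.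

**Theorem.** Suppose that the cohomology of one closed fibre is semisimple, or that the commutant of
the geometric fundamental group on `V` contains no nonzero element with square zero (that is, `V` is a
multiplicity free representation of the geometric fundamental group; here nothing is assumed on any
fibre).  Then the cohomology of the generic fibre is semisimple.  Moreover there is an open normal
subgroup `U` of `Γ`, that is, a connected finite étale Galois covering `T' → T`, such that the
cohomology of `X_t` is semisimple for all closed points `t` over which `T'` has only one point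
(`range θ ⊔ U = ⊤`), and has exactly the same stable subspaces as the generic fibre.

If `k` is a number field and `T` is an open subset of a projective space then, by Hilbert's
irreducibility theorem, these are all rational points of `T` outside of a thin set.  So in a
connected family a single member with semisimple cohomology implies that almost all members have
semisimple cohomology: the conjecture for almost all members of all families that contain, for
instance, one variety dominated by a product of curves (Faltings), such as a Fermat hypersurface, is
a theorem.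

The proof: let `W` be a subspace stable under `Γ`.  Let `p` be a projection onto `W` that commutes
with the Galois group of the closed fibre.  The trace form is nondegenerate on the commutant `C` of
the geometric fundamental group, since this group acts semisimply; the orthogonal projection of `p` to
`C` still commutes with the Galois group of the closed fibre, which normalizes `C`, and it is still a
projection onto `W`.  It is averaged over the cosets of a subgroup of finite index.  For the second
part one takes elements of `Γ` whose images are a basis of the algebra spanned by the image of `Γ`;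
elements close to them still have linearly independent images.
-/

set_option autoImplicit false

namespace Pool.Agent.Results.MP_b4801b_ag.OneFibre

/-- a representation of a group is semisimple if every stable subspace has a stable complement -/
def Semisimple {F V G : Type} [Field F] [AddCommGroup V] [Module F V] [Group G]
    (ρ : G →* (V →ₗ[F] V)) : Prop :=
  ∀ W : Submodule F V, (∀ g, ∀ w ∈ W, ρ g w ∈ W) →
    ∃ W' : Submodule F V, IsCompl W W' ∧ ∀ g, ∀ w ∈ W', ρ g w ∈ W'

/-- `Γ` is the fundamental group of a geometrically connected variety `T` over `k`, `π` its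
homomorphism to the absolute Galois group of `k`, and `ρ` the representation given by a lisse sheaf
on `T`, the cohomology of the fibres of a smooth projective morphism; the geometric fundamental group
(the kernel of `π`) acts semisimply (Deligne). -/
structure Family (k : Type) [Field k] (ℓ : ℕ) [Fact ℓ.Prime] (Γ V : Type) [Group Γ]
    [TopologicalSpace Γ] [AddCommGroup V] [Module ℚ_[ℓ] V] where
  π : Γ →* Gal(AlgebraicClosure k/k)
  ρ : Γ →* (V →ₗ[ℚ_[ℓ]] V)
  continuous : ∀ (φ : V →ₗ[ℚ_[ℓ]] ℚ_[ℓ]) (x : V), Continuous fun g => φ (ρ g x)
  geometric : Semisimple (ρ.comp π.ker.subtype)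

/-- a closed point of `T` with residue field `K`, a finite extension of `k`, and the homomorphism
from the absolute Galois group of `K` to `Γ` which it defines -/
structure ClosedPoint {k : Type} [Field k] {ℓ : ℕ} [Fact ℓ.Prime] {Γ V : Type} [Group Γ]
    [TopologicalSpace Γ] [AddCommGroup V] [Module ℚ_[ℓ] V] (A : Family k ℓ Γ V) where
  K : IntermediateField k (AlgebraicClosure k)
  finite : FiniteDimensional k K
  θ : Gal(AlgebraicClosure k/K) →* Γ
  compat : ∀ σ, A.π (θ σ) = σ.restrictScalars k

section

variable {k : Type} [Field k] {ℓ : ℕ} [Fact ℓ.Prime] {Γ V : Type} [Group Γ]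
  [TopologicalSpace Γ] [AddCommGroup V] [Module ℚ_[ℓ] V]

/-- the cohomology of the fibre at `t` is semisimple -/
def SemisimpleFibre {A : Family k ℓ Γ V} (t : ClosedPoint A) : Prop := Semisimple (A.ρ.comp t.θ)

/-- every subspace stable under the Galois group of the fibre at `t` is stable under `Γ` -/
def SameSubspaces {A : Family k ℓ Γ V} (t : ClosedPoint A) : Prop :=
  ∀ W : Submodule ℚ_[ℓ] V, (∀ σ, ∀ w ∈ W, A.ρ (t.θ σ) w ∈ W) → ∀ g, ∀ w ∈ W, A.ρ g w ∈ W

/-- no nonzero endomorphism of `V` which commutes with the geometric fundamental group has square
zero -/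
def MultiplicityFree (A : Family k ℓ Γ V) : Prop :=
  ∀ x : V →ₗ[ℚ_[ℓ]] V, (∀ g, A.π g = 1 → A.ρ g ∘ₗ x = x ∘ₗ A.ρ g) → x ∘ₗ x = 0 → x = 0

end

open Pool.Agent.Q294.SS in
theorem result {k : Type} [Field k] [CharZero k] {ℓ : ℕ} [Fact ℓ.Prime] {Γ V : Type} [Group Γ]
    [TopologicalSpace Γ] [IsTopologicalGroup Γ] [CompactSpace Γ] [TotallyDisconnectedSpace Γ]
    [AddCommGroup V] [Module ℚ_[ℓ] V] [FiniteDimensional ℚ_[ℓ] V] (A : Family k ℓ Γ V)
    (h : (∃ t : ClosedPoint A, SemisimpleFibre t) ∨ MultiplicityFree A) :
    Semisimple A.ρ ∧ ∃ U : Subgroup Γ, U.Normal ∧ IsOpen (U : Set Γ) ∧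
      ∀ t : ClosedPoint A, t.θ.range ⊔ U = ⊤ → SemisimpleFibre t ∧ SameSubspaces t := by
  have hN : SemiOn A.ρ A.π.ker := by
    intro W hW
    obtain ⟨W', h1, h2⟩ := A.geometric W (fun g w hw => hW g g.2 w hw)
    exact ⟨W', h1, fun g hg w hw => h2 ⟨g, hg⟩ w hw⟩
  have hss : SemiOn A.ρ (⊤ : Subgroup Γ) := by
    rcases h with ⟨t, ht⟩ | h
    · have hD : SemiOn A.ρ t.θ.range := by
        intro W hW
        obtain ⟨W', h1, h2⟩ := ht W (fun σ w hw => hW _ ⟨σ, rfl⟩ w hw)
        refine ⟨W', h1, ?_⟩
        rintro _ ⟨σ, rfl⟩ w hw
        exact h2 σ w hw
      refine semi_of_normal A.ρ ?_ hN hD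
      have hfin := t.finite
      have h1 : t.K.fixingSubgroup.FiniteIndex := by
        refine ⟨?_⟩
        rw [← IntermediateField.finrank_eq_fixingSubgroup_index]
        exact Module.finrank_pos.ne'
      have h2 : t.K.fixingSubgroup ≤ t.θ.range.map A.π := by
        intro σ hσ
        let τ : Gal(AlgebraicClosure k/t.K) := IntermediateField.fixingSubgroupEquiv t.K ⟨σ, hσ⟩
        refine ⟨t.θ τ, ⟨τ, rfl⟩, ?_⟩
        rw [t.compat]
        rfl
      have h3 : (t.θ.range.map A.π).FiniteIndex := Subgroup.finiteIndex_of_le h2
      rw [← Subgroup.comap_map_eq]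
      refine ⟨?_⟩
      rw [Subgroup.index_comap]
      exact ((t.θ.range.map A.π).subgroupOf A.π.range).index_ne_zero_of_finite
    · refine semi_of_reduced A.ρ hN fun x hx hxx => h x (fun g hg => ?_) hxx
      exact hx g hg
  refine ⟨fun W hW => ?_, ?_⟩
  · obtain ⟨W', h1, h2⟩ := hss W (fun g _ => hW g)
    exact ⟨W', h1, fun g => h2 g trivial⟩
  · obtain ⟨U, hU1, hU2, hU3⟩ := exists_open A.ρ A.continuous
    refine ⟨U, hU1, hU2, fun t ht => ?_⟩
    have h1 : ∀ W : Submodule ℚ_[ℓ] V, (∀ σ, ∀ w ∈ W, A.ρ (t.θ σ) w ∈ W) →
        ∀ g, ∀ w ∈ W, A.ρ g w ∈ W := by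
      intro W hW
      refine hU3 _ ht W ?_
      rintro _ ⟨σ, rfl⟩ w hw
      exact hW σ w hw
    refine ⟨fun W hW => ?_, h1⟩
    obtain ⟨W', h2, h3⟩ := hss W (fun g _ => h1 W hW g)
    exact ⟨W', h2, fun σ => h3 _ trivial⟩

end Pool.Agent.Results.MP_b4801b_ag.OneFibre
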